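import Pool.Agent.K1H62.PG.Stm

set_option autoImplicit false

/-! Project PG (helper62), pieces B (equivariance) and C (measurability). -/

namespace Pool.Agent.K1H75.PG

open Pool.Agent.W878.VC (Stp Fc Mdl Prm Gr SPO SLO Cmp)
open Pool.Agent.K1H62.PG
open Relation

section B

variable {A B : ℕ → ℕ → Prop} {σ : Equiv.Perm ℕ}

theorem stp_map (h : ∀ u v, B (σ u) (σ v) ↔ A u v) {s t : ℕ × ℕ} (hs : Stp A s t) :
    Stp B (σ s.1, σ s.2) (σ t.1, σ t.2) := by
  rcases hs with ⟨h1, h2, h3⟩ | ⟨h1, h2, h3⟩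
  · exact Or.inl ⟨congrArg σ h1, (h _ _).2 h2, fun h4 => h3 ((h _ _).1 h4)⟩
  · exact Or.inr ⟨congrArg σ h1, (h _ _).2 h2, fun h4 => h3 ((h _ _).1 h4)⟩

theorem fc_map (h : ∀ u v, B (σ u) (σ v) ↔ A u v) {s t : ℕ × ℕ} (hs : Fc A s t) :
    Fc B (σ s.1, σ s.2) (σ t.1, σ t.2) :=
  ReflTransGen.lift (fun p : ℕ × ℕ => (σ p.1, σ p.2)) (fun _ _ h1 => stp_map h h1) _ _ hs

theorem fc_iff (h : ∀ u v, B (σ u) (σ v) ↔ A u v) (a b c d : ℕ) :
    Fc B (σ a, σ b) (σ c, σ d) ↔ Fc A (a, b) (c, d) := by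
  constructor
  · intro h1
    have h2 : ∀ u v, A (σ.symm u) (σ.symm v) ↔ B u v := fun u v => by
      rw [← h, σ.apply_symm_apply, σ.apply_symm_apply]
    have h3 := fc_map h2 h1
    simpa using h3
  · intro h1
    exact fc_map h h1

theorem co_iff (h : ∀ u v, B (σ u) (σ v) ↔ A u v) (u v : ℕ) : Co B (σ u) (σ v) ↔ Co A u v := by
  unfold Co
  rw [h, σ.injective.ne_iff]

end B

/-- **(b)** -/
theorem t_B : S_B := by
  intro A B σ p h
  refine ⟨fun u v => ?_, fun u v => ?_, ?_⟩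
  · unfold lo
    simp only [Function.comp]
    rw [h, co_iff h, fc_iff h, fc_iff (co_iff h)]
  · unfold ko
    simp only [Function.comp]
    rw [h, co_iff h, fc_iff h, fc_iff (co_iff h)]
  · unfold Par
    simp only [Function.comp]
    rw [h, co_iff h]

section C

variable {Ω : Type*} [MeasurableSpace Ω] {R : Ω → ℕ → ℕ → Prop}

theorem me_stp (hR : ∀ u v, MeasurableSet {q | R q u v}) (s t : ℕ × ℕ) :
    MeasurableSet {q | Stp (R q) s t} := by
  have h1 : MeasurableSet {q | R q t.1 t.2} := hR _ _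
  have h2 : MeasurableSet {q | ¬ R q s.2 t.2} := (hR _ _).compl
  have h3 : MeasurableSet {q | ¬ R q s.1 t.1} := (hR _ _).compl
  exact ((MeasurableSet.const (s.1 = t.1)).inter (h1.inter h2)).union
    ((MeasurableSet.const (s.2 = t.2)).inter (h1.inter h3))

theorem me_fc (hR : ∀ u v, MeasurableSet {q | R q u v}) (s t : ℕ × ℕ) :
    MeasurableSet {q | Fc (R q) s t} := by
  obtain ⟨M, hM0, hM1⟩ : ∃ M : ℕ → ℕ × ℕ → Set Ω, (∀ t, M 0 t = {q | s = t}) ∧
      ∀ n t, M (n + 1) t = ⋃ r, M n r ∩ {q | Stp (R q) r t} :=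
    ⟨fun n => Nat.rec (motive := fun _ => ℕ × ℕ → Set Ω) (fun t => {q | s = t})
      (fun _ f t => ⋃ r, f r ∩ {q | Stp (R q) r t}) n, fun t => rfl, fun n t => rfl⟩
  have hm : ∀ n t, MeasurableSet (M n t) := by
    intro n
    induction n with
    | zero =>
      intro t
      rw [hM0]
      exact MeasurableSet.const _
    | succ n ih =>
      intro t
      rw [hM1]
      exact MeasurableSet.iUnion fun r => (ih r).inter (me_stp hR r t)
  have he : {q | Fc (R q) s t} = ⋃ n, M n t := by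
    ext q
    simp only [Set.mem_ofPred_eq, Set.mem_iUnion]
    constructor
    · intro h
      induction h with
      | refl => exact ⟨0, by rw [hM0]; rfl⟩
      | tail _ h1 ih =>
        obtain ⟨n, hn⟩ := ih
        exact ⟨n + 1, by rw [hM1]; exact Set.mem_iUnion.2 ⟨_, hn, h1⟩⟩
    · rintro ⟨n, hn⟩
      induction n generalizing t with
      | zero =>
        rw [hM0] at hn
        have h1 : s = t := hn
        rw [h1]
        exact ReflTransGen.refl
      | succ n ih =>
        rw [hM1] at hn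
        obtain ⟨r, h1, h2⟩ := Set.mem_iUnion.1 hn
        exact (ih r h1).tail h2
  rw [he]
  exact MeasurableSet.iUnion fun n => hm n t

theorem me_par {P : Ω → ℕ × ℕ → Prop} {f : Ω → ℕ × ℕ} (hf : Measurable f)
    (hP : ∀ s, MeasurableSet {q | P q s}) : MeasurableSet {q | P q (f q)} := by
  have he : {q | P q (f q)} = ⋃ s, (f ⁻¹' {s}) ∩ {q | P q s} := by
    ext q
    simp only [Set.mem_ofPred_eq, Set.mem_iUnion, Set.mem_inter_iff, Set.mem_preimage,
      Set.mem_singleton_iff]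
    constructor
    · intro h
      exact ⟨f q, rfl, h⟩
    · rintro ⟨s, h1, h2⟩
      rw [h1]
      exact h2
  rw [he]
  exact MeasurableSet.iUnion fun s => (hf (measurableSet_singleton s)).inter (hP s)

theorem me_co (hR : ∀ u v, MeasurableSet {q | R q u v}) (u v : ℕ) :
    MeasurableSet {q | Co (R q) u v} :=
  (MeasurableSet.const (u ≠ v)).inter (hR u v).compl

end C

theorem me_A (u v : ℕ) : MeasurableSet {q : (ℕ → ℕ → Bool) × (Fin 4 → ℕ) | q.1 u v = true} := by
  have h : Measurable fun q : (ℕ → ℕ → Bool) × (Fin 4 → ℕ) => q.1 u v :=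
    (measurable_pi_apply v).comp ((measurable_pi_apply u).comp measurable_fst)
  exact h (measurableSet_singleton true)

theorem me_f (i j : Fin 4) :
    Measurable fun q : (ℕ → ℕ → Bool) × (Fin 4 → ℕ) => (q.2 i, q.2 j) :=
  ((measurable_pi_apply i).comp measurable_snd).prodMk
    ((measurable_pi_apply j).comp measurable_snd)

/-- **(c)** -/
theorem t_C : S_C := by
  have hA : ∀ u v, MeasurableSet {q : (ℕ → ℕ → Bool) × (Fin 4 → ℕ) |
      (fun u v => q.1 u v = true : ℕ → ℕ → Prop) u v} := me_A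
  have hC := me_co hA
  have h1 : ∀ t, MeasurableSet {q : (ℕ → ℕ → Bool) × (Fin 4 → ℕ) |
      Fc (fun u v => q.1 u v = true) (q.2 0, q.2 1) t} := fun t =>
    me_par (P := fun q s => Fc (fun u v => q.1 u v = true) s t) (me_f 0 1)
      (fun s => me_fc hA s t)
  have h2 : ∀ t, MeasurableSet {q : (ℕ → ℕ → Bool) × (Fin 4 → ℕ) |
      Fc (Co (fun u v => q.1 u v = true)) (q.2 2, q.2 3) t} := fun t =>
    me_par (P := fun q s => Fc (Co (fun u v => q.1 u v = true)) s t) (me_f 2 3)
      (fun s => me_fc hC s t)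
  refine ⟨fun u v => ?_, fun u v => ?_, ?_⟩
  · exact ((hA u v).inter (h1 (u, v))).union ((hC u v).inter (h2 (u, v)))
  · exact ((hA u v).inter (h1 (v, u))).union ((hC u v).inter (h2 (u, v)))
  · exact (me_par (P := fun q s => q.1 s.1 s.2 = true) (me_f 0 1) fun s => hA s.1 s.2).inter
      (me_par (P := fun q s => Co (fun u v => q.1 u v = true) s.1 s.2) (me_f 2 3)
        fun s => hC s.1 s.2)

end Pool.Agent.K1H75.PG
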